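import Pool.Agent.H583R2.Expo

/-!
# Almost p-m-complete for E does not imply almost p-m-complete for EXP

Machines are Mathlib's `Turing.FinTM2` multi-stack machines, through
`Turing.TM2ComputableInTime`; languages are their characteristic functions.
-/

namespace Pool.Agent.Results.MP_7fc3ed_lc.AlmostCompleteEnotEXP

open Turing Computability

/-- The `n`-th binary string (counted from `0`) in length-lexicographic order: the binary
expansion of `n + 1`, most significant bit first, without its leading `1`. -/
def nthString (n : ℕ) : List Bool := (Nat.bits (n + 1)).dropLast.reverse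

/-- The first `n` bits of the characteristic sequence of `A`. -/
def firstBits (A : List Bool → Bool) (n : ℕ) : List Bool :=
  (List.range n).map (fun j => A (nthString j))

/-- A bit as a rational number. -/
def bitQ (b : Bool) : ℚ := if b then 1 else 0

/-- The value `d_s(A ↾ n)` of the martingale of the betting strategy `s`:
`d_s(λ) = 1` and `d_s(wi) = 2 |i - s(w)| d_s(w)`. -/
def capital (s : List Bool → ℚ) (A : List Bool → Bool) : ℕ → ℚ
  | 0 => 1
  | n + 1 => 2 * |bitQ (A (nthString n)) - s (firstBits A n)| * capital s A n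

/-- `d_s` succeeds on `A`: the capital along `A` is unbounded. -/
def Succeeds (s : List Bool → ℚ) (A : List Bool → Bool) : Prop :=
  ∀ K : ℚ, ∃ n, K < capital s A n

/-- Output encoding of a bit: the string of length one. -/
def encBit (b : Bool) : List Bool := [b]

/-- Output encoding of a pair `(p, q)` of natural numbers: each bit `b` of the binary expansion
of `p` is written `1 b`, then `0`, then the binary expansion of `q`. -/
def encFrac (p : ℕ × ℕ) : List Bool :=
  (encodeNat p.1).flatMap (fun b => [true, b]) ++ false :: encodeNat p.2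

/-- `s` is a betting strategy whose values are fractions in `[0,1]` computed (as a pair of
numerator and nonzero denominator in binary) by a machine that halts within `t |w|` steps on
every input `w`. -/
def IsStrategy (s : List Bool → ℚ) (t : ℕ → ℕ) : Prop :=
  (∀ w, 0 ≤ s w ∧ s w ≤ 1) ∧
  ∃ f : List Bool → ℕ × ℕ, (∀ w, 0 < (f w).2 ∧ s w = ((f w).1 : ℚ) / ((f w).2 : ℚ)) ∧
    ∃ M : TM2ComputableInTime (id : List Bool → List Bool) encFrac f, ∀ n, M.time n ≤ t n

/-- `B ∈ E = DTIME(2^{O(n)})`. -/
def InE (B : List Bool → Bool) : Prop :=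
  ∃ c : ℕ, ∃ M : TM2ComputableInTime (id : List Bool → List Bool) encBit B,
    ∀ n, M.time n ≤ 2 ^ (c * n + c)

/-- `B ∈ EXP = DTIME(2^{n^{O(1)}})`. -/
def InEXP (B : List Bool → Bool) : Prop :=
  ∃ c : ℕ, ∃ M : TM2ComputableInTime (id : List Bool → List Bool) encBit B,
    ∀ n, M.time n ≤ 2 ^ (n ^ c + c)

/-- `B ≤ A` under polynomial-time many-one reductions. -/
def Reduces (B A : List Bool → Bool) : Prop :=
  ∃ g : List Bool → List Bool,
    (∃ c : ℕ, ∃ M : TM2ComputableInTime (id : List Bool → List Bool)
      (id : List Bool → List Bool) g, ∀ n, M.time n ≤ n ^ c + c) ∧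
    ∀ x, B x = A (g x)

/-- The lower p-m-span of `A`. -/
def lowerSpan (A : List Bool → Bool) : Set (List Bool → Bool) := {B | Reduces B A}

/-- `C` has measure `0` in `E`: a polynomial-time betting strategy succeeds on `C ∩ E`. -/
def MeasureZeroE (C : Set (List Bool → Bool)) : Prop :=
  ∃ c : ℕ, ∃ s, IsStrategy s (fun n => n ^ c + c) ∧ ∀ B ∈ C, InE B → Succeeds s B

/-- `C` has measure `0` in `EXP`: a betting strategy computable in time `2^{(log n)^k + k}`
succeeds on `C ∩ EXP`. -/
def MeasureZeroEXP (C : Set (List Bool → Bool)) : Prop :=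
  ∃ k : ℕ, ∃ s, IsStrategy s (fun n => 2 ^ (Nat.log 2 n ^ k + k)) ∧
    ∀ B ∈ C, InEXP B → Succeeds s B

/-- `C` has measure `1` in `E`. -/
def MeasureOneE (C : Set (List Bool → Bool)) : Prop := MeasureZeroE Cᶜ

/-- `C` has measure `1` in `EXP`. -/
def MeasureOneEXP (C : Set (List Bool → Bool)) : Prop := MeasureZeroEXP Cᶜ

/-- `A` is almost p-m-complete for `E`. -/
def AlmostCompleteE (A : List Bool → Bool) : Prop := InE A ∧ MeasureOneE (lowerSpan A)

/-! ### comparison with the library -/

theorem bits_ne_nil {k : ℕ} (h : 1 ≤ k) : Nat.bits k ≠ [] := by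
  intro h3
  have h5 := Nat.size_eq_bits_len k
  rw [h3, List.length_nil] at h5
  have h6 := Nat.lt_size_self k
  rw [← h5] at h6
  simp at h6
  omega

theorem idxR_bits (m : ℕ) (h : 1 ≤ m) : H583R2.idxR (Nat.bits m).dropLast + 1 = m := by
  induction m using Nat.strong_induction_on with
  | _ m ih =>
    rcases Nat.even_or_odd' m with ⟨k, hk | hk⟩
    · have hk1 : 1 ≤ k := by omega
      have h1 : Nat.bits m = false :: Nat.bits k := by
        rw [hk]; exact Nat.bit0_bits k (by omega)
      have h2 := bits_ne_nil hk1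
      rw [h1, List.dropLast_cons_of_ne_nil h2]
      have h3 := ih k (by omega) hk1
      simp only [H583R2.idxR]
      simp
      omega
    · rcases Nat.eq_zero_or_pos k with h0 | h0
      · subst h0
        have : m = 1 := by omega
        subst this
        rfl
      · have h1 : Nat.bits m = true :: Nat.bits k := by
          rw [hk]; exact Nat.bit1_bits k
        have h2 := bits_ne_nil h0
        rw [h1, List.dropLast_cons_of_ne_nil h2]
        have h3 := ih k (by omega) h0
        simp only [H583R2.idxR]
        simp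
        omega

theorem nthString_eq (n : ℕ) : nthString n = H583R2.str n := by
  apply H583R2.idx_inj
  rw [H583R2.idx_str]
  unfold nthString H583R2.idx
  rw [List.reverse_reverse]
  have := idxR_bits (n + 1) (by omega)
  omega

theorem firstBits_eq (A : List Bool → Bool) (n : ℕ) : firstBits A n = H583R2.pre A n := by
  unfold firstBits H583R2.pre
  refine List.map_congr_left ?_
  intro j _
  rw [nthString_eq]

theorem capital_eq (s : List Bool → ℚ) (A : List Bool → Bool) (n : ℕ) :
    capital s A n = H583R2.capi s A n := by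
  induction n with
  | zero => rfl
  | succ n ih =>
    unfold capital H583R2.capi
    rw [ih, nthString_eq, firstBits_eq]
    rfl

/-- **There is a set that is almost p-m-complete for `E` and whose lower p-m-span does not have
measure `1` in `EXP`** (although the set itself is in `EXP`). -/
theorem result : ∃ A : List Bool → Bool, AlmostCompleteE A ∧ InEXP A ∧
    ¬ MeasureOneEXP (lowerSpan A) := by
  obtain ⟨c, M, hM⟩ := H583R2.AA_time
  refine ⟨H583R2.AA, ⟨⟨c, M, hM⟩, ?_⟩, ?_, ?_⟩
  · -- the complement of the span has measure zero in `E`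
    obtain ⟨cd, Md, hMd⟩ := H583R2.dF_time
    refine ⟨cd, H583R2.dS, ⟨fun w => H583R2.dS_rep.bounds w, H583R2.dF,
      fun w => ⟨(H583R2.dS_rep w).1, rfl⟩, Md, hMd⟩, ?_⟩
    rintro B hB ⟨cB, MB, hMB⟩
    obtain ⟨e, he⟩ := H583R2.exists_Bv MB cB hMB
    have hBe : H583R2.Bv e = B := funext he
    rcases H583R2.dichotomy e with ⟨s0, hs0⟩ | h
    · exfalso
      apply hB
      obtain ⟨g, hg, hg2⟩ := H583R2.coding hs0
      refine ⟨g, H583R2.tm_of_PF hg, ?_⟩
      intro x
      rw [← he x, hg2]
    · intro K
      obtain ⟨L, hL⟩ := h K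
      refine ⟨L, ?_⟩
      rw [capital_eq, ← hBe]
      exact hL
  · obtain ⟨c', hc'⟩ := H583R2.poly_norm c 1
    refine ⟨c', M, fun n => (hM n).trans (Nat.pow_le_pow_right (by norm_num) ?_)⟩
    have := hc' n
    rw [pow_one] at this
    nlinarith
  · -- the complement of the span does not have measure zero in `EXP`
    rintro ⟨k0, s, ⟨hs01, F, hF, MF, hMF⟩, hsucc⟩
    obtain ⟨k, hk⟩ := H583R2.goodD_of_tm MF k0 hMF
    have hrep : H583R2.Rep F s := by
      intro w
      obtain ⟨h1, h2⟩ := hF w
      refine ⟨h1, ?_, h2⟩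
      have h3 := (hs01 w).2
      have h4 : (0 : ℚ) < ((F w).2 : ℚ) := by exact_mod_cast h1
      rw [h2, div_le_one h4] at h3
      exact_mod_cast h3
    have hR : H583R2.RR F k ∈ (lowerSpan H583R2.AA)ᶜ := by
      rintro ⟨g, ⟨cg, Mg, hMg⟩, hg⟩
      obtain ⟨cd, hcd⟩ := H583R2.goodG_of_tm Mg cg hMg
      obtain ⟨x, hx⟩ := H583R2.requirement hk hcd
      exact hx (hg x)
    obtain ⟨n, hn⟩ := hsucc _ hR (H583R2.RR_time hk) 2
    rw [capital_eq] at hn
    exact absurd hn (not_lt.2 (H583R2.capi_bounded hk hrep n))

end Pool.Agent.Results.MP_7fc3ed_lc.AlmostCompleteEnotEXP
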